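import Pool.Agent.Helper30.LQ.St

/-!
# Project LM (MP_d57c14_nt): for almost all `n` there is `k ≤ C log n` such that `n ^ 2 - n k + k ^ 2` has at most `R` prime factors.
Statements of the modules, with proofs.

Fix a large `p`, `P = ∏_{q ≤ p} q`, and a class `n ≡ a (P)`, `n = a + P m`, `1 ≤ m ≤ M`. Only the `k = r + P j`, `1 ≤ j ≤ J`, `r = P / gcd(P, a)` are used: then `n ^ 2 - n k + k ^ 2` is prime to `P` (modulo `q ∤ a` it is `n ^ 2`, modulo `q ∣ a` it is `k ^ 2`).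
`XX` is the number of the `j ≤ J` for which `n ^ 2 - n k + k ^ 2` has no prime factor in `(p, w]`, `w = M ^ δ`. Its mean value over `m` is `J V`, `V = VV p w = ∏ (1 - ρ(l) / l)`, `ρ(l) = 2` for `l ≡ 1 (3)` and `0` otherwise, `V ≥ c / log w`, and its variance is small: the fundamental lemma gives the count of the `m` for the pairs
`k ≠ k'`, with `ρ(k, k'; l) = 2 ρ(l)` except for the primes `l ∣ k k' (k - k') (k ^ 2 + k k' + k' ^ 2)`, whose effect is `1 + o(1)` in the mean over `k`, `k'`.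
-/

set_option autoImplicit false

noncomputable section

namespace Pool.Agent.Helper98.LM

open Finset
open Pool.Agent.Helper18.TR (StFL)
open Pool.Agent.Helper15.AB (StMT)
open Pool.Agent.Helper30.LQ (StMR4)

/-- the form -/
def fz (n k : ℤ) : ℤ := n ^ 2 - n * k + k ^ 2

/-- the primes in `(p, w]` -/
def QQ (p w : ℕ) : Finset ℕ := (Ioc p w).filter Nat.Prime

/-- the number of the classes of `n` modulo `l` with `l ∣ n ^ 2 - n k + k ^ 2`, if `l ∤ k` -/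
def rh (l : ℕ) : ℕ := if l % 3 = 1 then 2 else 0

/-- the classes of `m` modulo `l` with `l ∣ fz (a + P m) k` -/
def SS (P a k l : ℕ) : Finset ℕ := (range l).filter (fun s : ℕ => (l : ℤ) ∣ fz ((a : ℤ) + P * s) k)

/-- the density -/
def VV (p w : ℕ) : ℝ := ∏ l ∈ QQ p w, (1 - (rh l : ℝ) / l)

/-- the number of the `j ≤ J` for which the value at `n = a + P m`, `k = r + P j` has no prime factor in `(p, w]` -/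
def XX (p w P a r J m : ℕ) : ℕ :=
  ((Icc 1 J).filter (fun j : ℕ => ∀ l ∈ QQ p w, ¬ (l : ℤ) ∣ fz ((a : ℤ) + P * m) ((r : ℤ) + P * j))).card

/-- the correlation of `k`, `k'` (without the factor `k'`) -/
def DD (k k' : ℕ) : ℕ := k * ((k : ℤ) - k').natAbs * (k ^ 2 + k * k' + k' ^ 2)

/-- (SV, assume `hF : StFL`.) The sieve. PROOF. As the first half of `Pool/Agent/Helper36/LK/M_SVU.lean` (both inequalities): `StFL` with `κ = 4` gives `B`, `g l = |S l| / l ≤ 4 / l ≤ 1 / 2`, and `cntT_ALL` gives `R = ∏ |S l| ≤ ∏ l ≤ w ^ B`; the error is `w ^ B w ^ B`. -/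
def StSV : Prop := ∀ ε : ℝ, 0 < ε → ∃ B : ℕ, ∀ w M : ℕ, 2 ≤ w → ∀ (Q : Finset ℕ) (S : ℕ → Finset ℕ),
  (∀ l ∈ Q, l.Prime ∧ 8 ≤ l ∧ l ≤ w) → (∀ l ∈ Q, (∀ s ∈ S l, s < l) ∧ (S l).card ≤ 4) →
  |(((Icc 1 M).filter (fun m : ℕ => ∀ l ∈ Q, m % l ∉ S l)).card : ℝ) - M * ∏ l ∈ Q, (1 - ((S l).card : ℝ) / l)| ≤
    ε * (M * ∏ l ∈ Q, (1 - ((S l).card : ℝ) / l)) + (w : ℝ) ^ B

/-- (LOC, no hypotheses.) Local densities. `l ∤ P`, so `s ↦ a + P s` is a bijection modulo `l`: count the roots `x` modulo `l` of `x ^ 2 - k x + k ^ 2`. PROOF. (1) A quadratic polynomial over the field `ZMod l` has at most two roots. (2) `l ∣ k`: `x ^ 2 = 0`. (3) `l ∤ k`: `x = k t` with `t ^ 2 - t + 1 = 0`; `(2 t - 1) ^ 2 = - 3`,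
which has two solutions (different, `l > 3`) if `l ≡ 1 (3)` and none if `l ≡ 2 (3)` (an element `t` with `t ^ 2 - t + 1 = 0` has `t ^ 3 = -1`, `t ^ 6 = 1`, `t ≠ -1` as `l ≠ 3`, so `- t` has order three, `3 ∣ l - 1`; conversely an element of order three exists if `3 ∣ l - 1`, and `t = - u`, also `t = - u ^ 2`; `ZMod` is cyclic). (4) A common root `x` for `k`, `k'`: `x ≠ 0` as `l ∤ k`;
`(x - k)(x - k') (..)`: from `k ^ 2 - x k + x ^ 2 = 0 = k' ^ 2 - x k' + x ^ 2` subtract: `(k - k') (k + k' - x) = 0`, so `x = k + k'` (as `l ∤ k - k'`), and then `k ^ 2 - (k + k') k + (k + k') ^ 2 = k ^ 2 + k k' + k' ^ 2 = 0`: contradiction. -/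
def StLOC : Prop := ∀ P a l : ℕ, l.Prime → 3 < l → ¬ l ∣ P →
  (∀ k : ℕ, (SS P a k l).card ≤ 2) ∧ (∀ k : ℕ, l ∣ k → (SS P a k l).card ≤ 1) ∧
  (∀ k : ℕ, ¬ l ∣ k → (SS P a k l).card = rh l) ∧
  ∀ k k' : ℕ, ¬ l ∣ k' → ¬ l ∣ DD k k' → Disjoint (SS P a k l) (SS P a k' l)

/-- (GG, no hypotheses.) PROOF. The left side is `∑_{j ∈ I} ∑_{T ⊆ Q, l ∣ D j for all l ∈ T} ∏_{l ∈ T} 8 / l` (`Finset.prod_one_add` / `prod_add_one`), exchange the sums: `∑_T ∏ (8 / l) #{j ∈ I : l ∣ D j for all l ∈ T}`. The number is `0` unless `T ⊆ Q.filter (· ≤ Y)` (`l ∣ D j`, `1 ≤ D j ≤ Y`), and at most `4 ^ |T| (J / ∏ l + 1)`: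
`≤ J ∑_{T ⊆ Q} ∏ 32 / l ^ 2 + ∑_{T ⊆ Q.filter (· ≤ Y)} ∏ 32 / l`. -/
def StGG : Prop := ∀ (Q I : Finset ℕ) (J Y : ℕ) (D : ℕ → ℕ), (∀ l ∈ Q, l.Prime) → (∀ j ∈ I, 1 ≤ D j ∧ D j ≤ Y) →
  (∀ T ⊆ Q, ((I.filter (fun j : ℕ => ∀ l ∈ T, l ∣ D j)).card : ℝ) ≤ 4 ^ T.card * (J / ∏ l ∈ T, (l : ℝ) + 1)) →
  ∑ j ∈ I, ∏ l ∈ Q.filter (fun l => l ∣ D j), (1 + 8 / (l : ℝ)) ≤
    J * ∏ l ∈ Q, (1 + 32 / (l : ℝ) ^ 2) + ∏ l ∈ Q.filter (fun l => l ≤ Y), (1 + 32 / (l : ℝ))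

/-- (GAB, assume `hG : StGG`, `hM : StMT`.) The mean value of the correlations. PROOF. GG with `Q = QQ p w`, `I = Icc 1 J` (resp. without `j'`), `D j = r + P j` (resp. `DD (r + P j) (r + P j')`, positive as `j ≠ j'`), `Y = 3 (P (J + 1)) ^ 4`. For `l ∈ Q` (`l ∤ P`) the condition `l ∣ D j` means `j % l ∈ S l` with at most four classes
(`k ≡ 0`, `k ≡ k'`, and at most two roots `k` of `k ^ 2 + k k' + k' ^ 2`); `Pool.Agent.Helper9.SU.cntT_ALL` (see its use in `Pool/Agent/Helper36/LK/M_SVU.lean`) gives the number `≤ J ∏ |S l| / l + ∏ |S l| ≤ 4 ^ |T| (J / ∏ l + 1)`. `∏_{l > p} (1 + 32 / l ^ 2) ≤ exp(32 / p) ≤ 1 + ε / 2` for `p ≥ p₁`, and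
`∏_{l ≤ Y} (1 + 32 / l) ≤ exp(32 (log log Y + C)) = C' (log Y) ^ 32 ≤ (ε / 2) J` for `J ≥ J₀` (depending on `P`, `ε`). -/
def StGAB : Prop := ∀ ε : ℝ, 0 < ε → ∃ p₁ : ℕ, ∀ p P : ℕ, p₁ ≤ p → 1 ≤ P → (∀ l : ℕ, l.Prime → l ∣ P → l ≤ p) →
  ∃ J₀ : ℕ, ∀ J r w : ℕ, J₀ ≤ J → r ≤ P →
    ∑ j ∈ Icc 1 J, ∏ l ∈ (QQ p w).filter (fun l => l ∣ r + P * j), (1 + 8 / (l : ℝ)) ≤ (1 + ε) * J ∧
    ∀ j' ∈ Icc 1 J, ∑ j ∈ (Icc 1 J).erase j',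
      ∏ l ∈ (QQ p w).filter (fun l => l ∣ DD (r + P * j) (r + P * j')), (1 + 8 / (l : ℝ)) ≤ (1 + ε) * J

/-- (VLB, assume `hM : StMR4`.) PROOF. `1 - 2 / l ≥ exp(- 2 / l - 8 / l ^ 2)` for `l ≥ 7`; `VV p w ≥ exp(- 2 ∑_{l ≤ w, l ≡ 1 (3)} 1 / l - 8 ∑ 1 / l ^ 2) ≥ exp(- log log w - 2 C - 16)`. -/
def StVLB : Prop := ∃ c : ℝ, 0 < c ∧ ∀ p w : ℕ, 7 ≤ p → 3 ≤ w → c / Real.log w ≤ VV p w

/-- (MO1, assume `hS : StSV`, `hL : StLOC`, `hG : StGAB`.) The first moment. PROOF. `∑_m XX = ∑_j #{m : m % l ∉ SS P a k l for all l ∈ QQ p w}`, `k = r + P j` (`l ∣ fz (a + P m) k` iff `m % l ∈ SS P a k l`); SV with `Q = QQ p w`, `S l = SS P a k l` and `ε / 4`. Lower bound: `1 - |S l| / l ≥ (1 - ρ(l) / l)(1 - 1 / l)` for `l ∣ k` and `= 1 - ρ(l) / l` otherwise, so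
`∏ ≥ V (1 - ∑_{l ∈ QQ p w, l ∣ k} 1 / l)`; `∑_{j ≤ J} ∑_{l ∣ r + P j, l > p} 1 / l ≤ ∑_{p < l ≤ P (J + 1)} (1 / l) (J / l + 1) ≤ J / p + 1 + log (P (J + 1)) ≤ (ε / 4) J` for `p ≥ 8 / ε` and `J ≥ J₀`. Upper bound: `1 - |S l| / l ≤ (1 - ρ(l) / l) (1 + 8 / l)` for `l ∣ k`; GAB (first part) with `ε = 1`: `(1 + ε / 4) 2 J M V ≤ 4 J M V`. -/
def StMO1 : Prop := ∀ ε : ℝ, 0 < ε → ε ≤ 1 → ∃ B p₁ : ℕ, 7 ≤ p₁ ∧ ∀ p P : ℕ, p₁ ≤ p → 1 ≤ P →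
  (∀ l : ℕ, l.Prime → l ∣ P → l ≤ p) → ∃ J₀ : ℕ, 1 ≤ J₀ ∧ ∀ J a r w M : ℕ, J₀ ≤ J → r ≤ P → 2 ≤ w →
    (1 - ε) * (J * M * VV p w) - J * (w : ℝ) ^ B ≤ ∑ m ∈ Icc 1 M, (XX p w P a r J m : ℝ) ∧
    ∑ m ∈ Icc 1 M, (XX p w P a r J m : ℝ) ≤ 4 * (J * M * VV p w) + J * (w : ℝ) ^ B

/-- (PR2, assume `hS : StSV`, `hL : StLOC`.) One pair. PROOF. SV with `Q = QQ p w`, `S l = SS P a k l ∪ SS P a k' l` (at most four classes). If `l ∤ k'`, `l ∤ DD k k'` then `|S l| = 2 ρ(l)` and `1 - 2 ρ / l ≤ (1 - ρ / l) ^ 2`; otherwise `1 - |S l| / l ≤ 1 ≤ (1 - ρ / l) ^ 2 (1 + 8 / l)` (`l ≥ 8`), and the product of the factors `1 + 8 / l`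
over the `l` dividing `k'` or `DD k k'` is at most the product of the two products. -/
def StPR2 : Prop := ∀ ε : ℝ, 0 < ε → ∃ B : ℕ, ∀ p P a k k' w M : ℕ, 7 ≤ p → (∀ l : ℕ, l.Prime → l ∣ P → l ≤ p) → 2 ≤ w →
  (((Icc 1 M).filter (fun m : ℕ => (∀ l ∈ QQ p w, ¬ (l : ℤ) ∣ fz ((a : ℤ) + P * m) k) ∧
    ∀ l ∈ QQ p w, ¬ (l : ℤ) ∣ fz ((a : ℤ) + P * m) k')).card : ℝ) ≤
    (1 + ε) * (M * VV p w ^ 2 * ((∏ l ∈ (QQ p w).filter (fun l => l ∣ k'), (1 + 8 / (l : ℝ))) *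
      ∏ l ∈ (QQ p w).filter (fun l => l ∣ DD k k'), (1 + 8 / (l : ℝ)))) + (w : ℝ) ^ B

/-- (MO2, assume `h1 : StMO1`, `hP : StPR2`, `hG : StGAB`.) The second moment. PROOF. `∑_m XX ^ 2 = ∑_{j, j'} #{m : ..}`; `j = j'`: MO1; `j ≠ j'`: PR2 with `ε / 8`, and GAB with `ε / 8`: `∑_{j'} ∑_{j ≠ j'} ≤ ((1 + ε / 8) J) ^ 2`, `(1 + ε / 8) ^ 3 ≤ 1 + ε`. The exponents `B` are replaced by their maximum, `J ≤ J ^ 2`. -/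
def StMO2 : Prop := ∀ ε : ℝ, 0 < ε → ε ≤ 1 → ∃ B p₁ : ℕ, 7 ≤ p₁ ∧ ∀ p P : ℕ, p₁ ≤ p → 1 ≤ P →
  (∀ l : ℕ, l.Prime → l ∣ P → l ≤ p) → ∃ J₀ : ℕ, 1 ≤ J₀ ∧ ∀ J a r w M : ℕ, J₀ ≤ J → r ≤ P → 2 ≤ w →
    ∑ m ∈ Icc 1 M, (XX p w P a r J m : ℝ) ^ 2 ≤
      (1 + ε) * (J ^ 2 * M * VV p w ^ 2) + 4 * (J * M * VV p w) + 2 * (J ^ 2 * (w : ℝ) ^ B)

/-- (CHA, assume `h1 : StMO1`, `h2 : StMO2`, `hV : StVLB`.) Chebyshev. PROOF. MO1 and MO2 with `η = ε / 16` (`η ≤ 1`), `B` the maximum of the two exponents (`w ^ B` increases), `p₁` the maximum, `δ = 1 / (2 B + 2)`, `w = ⌊M ^ δ⌋` (`≥ 3` for large `M`), `μ = J V`: `#{XX = 0} μ ^ 2 ≤ ∑ (XX - μ) ^ 2 ≤ (1 + η) μ ^ 2 M + 4 μ M + 2 J ^ 2 w ^ B - 2 μ ((1 - η) μ M - J w ^ B) + μ ^ 2 M ≤ 3 η μ ^ 2 M + 4 μ M + 4 J ^ 2 w ^ B`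
(`0 < V ≤ 1`), so `#{XX = 0} ≤ 3 η M + 4 M / μ + 4 w ^ B / V ^ 2`. `V ≥ c / log w ≥ c / log M`, `w ^ B ≤ M ^ (1/2)`: the last term is `≤ 4 M ^ (1/2) (log M) ^ 2 / c ^ 2 ≤ η M` for `M ≥ M₀`; `μ ≥ C log M c / log M = C c`, `4 / μ ≤ η` for `C = 4 / (c η)`. -/
def StCHA : Prop := ∀ ε : ℝ, 0 < ε → ∃ δ C : ℝ, 0 < δ ∧ δ ≤ 1 ∧ 0 < C ∧ ∃ p₁ : ℕ, 7 ≤ p₁ ∧ ∀ p P : ℕ, p₁ ≤ p → 1 ≤ P →
  (∀ l : ℕ, l.Prime → l ∣ P → l ≤ p) → ∃ M₀ : ℕ, ∀ M J a r : ℕ, M₀ ≤ M → C * Real.log M ≤ J → r ≤ P →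
    (((Icc 1 M).filter (fun m : ℕ => XX p ⌊(M : ℝ) ^ δ⌋₊ P a r J m = 0)).card : ℝ) ≤ ε * M

/-- (CHB, assume `h1 : StMO1`, `h2 : StMO2`, `hV : StVLB`.) Cauchy-Schwarz. PROOF. MO1 and MO2 with `ε = 1 / 2`, `B`, `p₁`, `δ`, `w`, `μ = J V ≥ c₁ c` as in CHA: `∑ XX ≥ μ M / 2 - J w ^ B ≥ μ M / 4` (`w ^ B ≤ M ^ (1/2)`, `V ≥ c / log M`), `∑ XX ^ 2 ≤ (3/2) μ ^ 2 M + 4 μ M + 2 J ^ 2 w ^ B ≤ 2 μ ^ 2 M + 4 μ M`, and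
`(∑ XX) ^ 2 ≤ #{XX > 0} ∑ XX ^ 2` (`Finset.sum_mul_sq_le_sq_mul_sq` or `inner_mul_le_norm_mul_norm`): `#{XX > 0} ≥ μ M / (32 μ + 64) ≥ η M`, `η = c₁ c / (32 c₁ c + 64)` (increasing in `μ`). -/
def StCHB : Prop := ∃ δ : ℝ, 0 < δ ∧ δ ≤ 1 ∧ ∃ p₁ : ℕ, 7 ≤ p₁ ∧ ∀ p P : ℕ, p₁ ≤ p → 1 ≤ P →
  (∀ l : ℕ, l.Prime → l ∣ P → l ≤ p) → ∀ c₁ : ℝ, 0 < c₁ → ∃ η : ℝ, 0 < η ∧ ∃ M₀ : ℕ, ∀ M J a r : ℕ, M₀ ≤ M →
    c₁ * Real.log M ≤ J → r ≤ P →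
    η * M ≤ (((Icc 1 M).filter (fun m : ℕ => 0 < XX p ⌊(M : ℝ) ^ δ⌋₊ P a r J m)).card : ℝ)

/-- (EX, no hypotheses.) From `XX > 0` to `k`. `P = primorial p`, `a = n % P`, `r = P / gcd(P, a)`, `m = n / P`, so `a + P m = n`. PROOF. `k = r + P j ≤ P (J + 1) ≤ n` for a counted `j`; `f = k ^ 2 + k (n - k) + (n - k) ^ 2 = n ^ 2 - n k + k ^ 2` (`= fz n k`), `0 < f ≤ n ^ 2`. Let `q` be a prime factor of `f`. If `q ≤ p` then `q ∣ P`, `P` is squarefree: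
if `q ∤ a` then `q ∣ r`, `q ∣ k`, `f ≡ n ^ 2 ≡ a ^ 2` modulo `q`, contradiction; if `q ∣ a` then `q ∤ r`, `q ∤ k`, `q ∣ n`, `f ≡ k ^ 2`, contradiction. If `p < q ≤ w`, then `q ∈ QQ p w`, contradiction. So `q > w`, and `w ^ Ω(f) ≤ f ≤ n ^ 2`. -/
def StEX : Prop := ∀ p w J n : ℕ, 2 ≤ w → primorial p * (J + 1) ≤ n →
  0 < XX p w (primorial p) (n % primorial p) (primorial p / Nat.gcd (primorial p) (n % primorial p)) J (n / primorial p) →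
  ∃ k : ℕ, 1 ≤ k ∧ k ≤ primorial p * (J + 1) ∧
    (ArithmeticFunction.cardFactors (k ^ 2 + k * (n - k) + (n - k) ^ 2) : ℝ) * Real.log w ≤ 2 * Real.log n

open Classical in
/-- the property of `n`: some `1 ≤ k ≤ C log n`, `k ≤ n / 2`, has `k ^ 2 + k (n - k) + (n - k) ^ 2` with at most `R` prime factors -/
def Good (C : ℝ) (R n : ℕ) : Prop := ∃ k : ℕ, 1 ≤ k ∧ 2 * k ≤ n ∧ (k : ℝ) ≤ C * Real.log n ∧
  ArithmeticFunction.cardFactors (k ^ 2 + k * (n - k) + (n - k) ^ 2) ≤ R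

open Classical in
/-- (FNA, assume `h : StCHA`, `hE : StEX`.) PROOF. CHA with `ε / 2`; `p = p₁`, `P = primorial p`, `M = N / P`, `J = ⌈C log M⌉`, `w = ⌊M ^ δ⌋ ≥ 2`. A number `n ≤ N` with `n ≥ √N` (`≥ P (J + 1)` for large `N`, and `n / P ≥ 1`) has `a = n % P`, `m = n / P ∈ Icc 1 M`, `n = a + P m`. For each of the `P` values of `a` at most `(ε / 2) M` of the `m` have `XX = 0`: altogether at most
`P (ε / 2) M ≤ (ε / 2) N` of the `n`. For the other `n ≥ √N` EX gives `k ≤ P (J + 1) ≤ C' log n` (`log M ≤ log N ≤ 2 log n`; `C' = 8 P (C + 1)`, large `N`), `2 k ≤ n`, and `Ω ≤ 2 log n / log w ≤ 2 log N / ((δ / 2) log N) = 4 / δ` (`w ≥ N ^ (δ / 2)` for large `N`), `R = ⌈4 / δ⌉`. The `n < √N` are at most `√N ≤ (ε / 2) N`. -/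
def StFNA : Prop := ∀ ε : ℝ, 0 < ε → ∃ C : ℝ, 0 < C ∧ ∃ R N₀ : ℕ, ∀ N : ℕ, N₀ ≤ N →
  (((Icc 1 N).filter (fun n => ¬ Good C R n)).card : ℝ) ≤ ε * N

open Classical in
/-- (FNB, assume `h : StCHB`, `hE : StEX`.) PROOF. As FNA, with `p = p₁`, `P = primorial p`, `R = ⌈4 / δ⌉`; `c₁ = c / (8 P)`, `J = ⌈c₁ log M⌉`, `P (J + 1) ≤ P (c₁ log N + 2) ≤ (c / 2) log N ≤ c log n` for `n ≥ √N` and large `N`. For `a = 0` (one class is enough) at least `η M` of the `m ∈ Icc 1 M` have `XX > 0`; those with `P m ≥ √N` (all but `√N`) give `n = P m ≤ N` which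
is good: at least `η M - √N ≥ (η / (2 P)) N / 2`. -/
def StFNB : Prop := ∃ R : ℕ, ∀ c : ℝ, 0 < c → ∃ η : ℝ, 0 < η ∧ ∃ N₀ : ℕ, ∀ N : ℕ, N₀ ≤ N →
  η * N ≤ (((Icc 1 N).filter (fun n => Good c R n)).card : ℝ)

end Pool.Agent.Helper98.LM
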