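import Pool.Agent.Helper98.LM.St

/-!
# LM CHA: Chebyshev
-/

set_option autoImplicit false

namespace Pool.Agent.Helper98.LM

open Finset Filter
open Pool.Agent.Helper18.TR (StFL)
open Pool.Agent.Helper15.AB (StMT)
open Pool.Agent.Helper30.LQ (StMR4)

private lemma ev_log (c d : ℝ) (hc : 0 < c) (n : ℕ) :
    ∀ᶠ x : ℝ in atTop, d * Real.log x ^ n ≤ c * x ^ (1 / 2 : ℝ) := by
  have h := isLittleO_log_rpow_rpow_atTop (n : ℝ) (by norm_num : (0 : ℝ) < 1 / 2)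
  have hd : 0 < c / (|d| + 1) := by positivity
  have h1 := h.bound hd
  filter_upwards [h1, eventually_ge_atTop (1 : ℝ)] with x hx hx1
  have hl : 0 ≤ Real.log x := Real.log_nonneg hx1
  rw [Real.rpow_natCast, Real.norm_of_nonneg (pow_nonneg hl n),
    Real.norm_of_nonneg (by positivity)] at hx
  have h2 : d * Real.log x ^ n ≤ (|d| + 1) * Real.log x ^ n :=
    mul_le_mul_of_nonneg_right (by linarith [le_abs_self d]) (pow_nonneg hl n)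
  refine h2.trans ?_
  have h3 := mul_le_mul_of_nonneg_left hx (by positivity : (0 : ℝ) ≤ |d| + 1)
  refine h3.trans (le_of_eq ?_)
  field_simp

/-- Chebyshev -/
private lemma chb (M : ℕ) (X : ℕ → ℕ) (μ : ℝ) :
    (((Icc 1 M).filter (fun m : ℕ => X m = 0)).card : ℝ) * μ ^ 2 ≤
      ∑ m ∈ Icc 1 M, (X m : ℝ) ^ 2 - 2 * μ * ∑ m ∈ Icc 1 M, (X m : ℝ) + μ ^ 2 * M := by
  have h1 : ∑ m ∈ Icc 1 M, ((X m : ℝ) - μ) ^ 2 =
      ∑ m ∈ Icc 1 M, (X m : ℝ) ^ 2 - 2 * μ * ∑ m ∈ Icc 1 M, (X m : ℝ) + μ ^ 2 * M := by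
    have h2 : ∀ m ∈ Icc 1 M, ((X m : ℝ) - μ) ^ 2 = (X m : ℝ) ^ 2 - 2 * μ * X m + μ ^ 2 := by
      intro m _
      ring
    rw [sum_congr rfl h2, sum_add_distrib, sum_sub_distrib, ← mul_sum, sum_const, Nat.card_Icc]
    simp only [nsmul_eq_mul, Nat.add_sub_cancel]
    ring
  rw [← h1]
  calc (((Icc 1 M).filter (fun m : ℕ => X m = 0)).card : ℝ) * μ ^ 2
      = ∑ m ∈ (Icc 1 M).filter (fun m : ℕ => X m = 0), ((X m : ℝ) - μ) ^ 2 := by
        rw [← nsmul_eq_mul, ← sum_const]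
        refine sum_congr rfl fun m hm => ?_
        rw [(mem_filter.mp hm).2]
        norm_num
    _ ≤ ∑ m ∈ Icc 1 M, ((X m : ℝ) - μ) ^ 2 :=
        sum_le_sum_of_subset_of_nonneg (filter_subset _ _) fun _ _ _ => sq_nonneg _

/-- the final inequality -/
private lemma fin_cha (N μ η M S1 S2 E1 E2 : ℝ) (hM : 0 < M) (hη : 0 < η) (hμ : 4 / η ≤ μ)
    (h1 : (1 - η) * (μ * M) - E1 ≤ S1) (h2 : S2 ≤ (1 + η) * (μ ^ 2 * M) + 4 * (μ * M) + E2)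
    (hE1 : 2 * E1 ≤ η * (μ * M)) (hE2 : E2 ≤ η * (μ ^ 2 * M))
    (h3 : N * μ ^ 2 ≤ S2 - 2 * μ * S1 + μ ^ 2 * M) : N ≤ 6 * η * M := by
  have hμ0 : 0 < μ := lt_of_lt_of_le (by positivity) hμ
  have h4 : 4 ≤ η * μ := by
    rw [div_le_iff₀ hη] at hμ
    linarith
  have h5 : 2 * μ * ((1 - η) * (μ * M) - E1) ≤ 2 * μ * S1 :=
    mul_le_mul_of_nonneg_left h1 (by positivity)
  have h6 : μ * (2 * E1) ≤ μ * (η * (μ * M)) := mul_le_mul_of_nonneg_left hE1 hμ0.le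
  have h7 : 4 * (μ * M) ≤ η * μ * (μ * M) := mul_le_mul_of_nonneg_right h4 (by positivity)
  have h8 : N * μ ^ 2 ≤ (6 * η * M) * μ ^ 2 := by
    have e : (6 * η * M) * μ ^ 2 = 6 * (η * (μ ^ 2 * M)) := by ring
    rw [e]
    have e1 : μ * (η * (μ * M)) = η * (μ ^ 2 * M) := by ring
    have e2 : η * μ * (μ * M) = η * (μ ^ 2 * M) := by ring
    have e3 : 2 * μ * ((1 - η) * (μ * M) - E1) = 2 * (μ ^ 2 * M) - 2 * (η * (μ ^ 2 * M)) -
        μ * (2 * E1) := by ring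
    have e4 : (1 + η) * (μ ^ 2 * M) = μ ^ 2 * M + η * (μ ^ 2 * M) := by ring
    rw [e1] at h6
    rw [e2] at h7
    rw [e3] at h5
    rw [e4] at h2
    linarith
  exact le_of_mul_le_mul_right h8 (by positivity)

/-- **Module CHA.** -/
theorem hCHA (h1 : StMO1) (h2 : StMO2) (hV : StVLB) : StCHA := by
  intro ε hε
  obtain ⟨η, hηd⟩ : ∃ η : ℝ, η = min (ε / 16) 1 := ⟨_, rfl⟩
  have hη0 : 0 < η := by rw [hηd]; exact lt_min (by positivity) one_pos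
  have hη1 : η ≤ 1 := by rw [hηd]; exact min_le_right _ _
  have hηε : η ≤ ε / 16 := by rw [hηd]; exact min_le_left _ _
  obtain ⟨B₁, q₁, hq₁, H1⟩ := h1 η hη0 hη1
  obtain ⟨B₂, q₂, -, H2⟩ := h2 η hη0 hη1
  obtain ⟨c, hc, HV⟩ := hV
  obtain ⟨δ, hδ⟩ : ∃ δ : ℝ, δ = 1 / (2 * ((B₁ : ℝ) + B₂) + 2) := ⟨_, rfl⟩
  have hB₁ : (0 : ℝ) ≤ B₁ := Nat.cast_nonneg _
  have hB₂ : (0 : ℝ) ≤ B₂ := Nat.cast_nonneg _
  have hδ0 : 0 < δ := by rw [hδ]; positivity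
  have hδ1 : δ ≤ 1 := by
    rw [hδ, div_le_one (by positivity)]
    linarith
  have hδB₁ : δ * B₁ ≤ 1 / 2 := by
    rw [hδ, div_mul_eq_mul_div, div_le_iff₀ (by positivity)]
    linarith
  have hδB₂ : δ * B₂ ≤ 1 / 2 := by
    rw [hδ, div_mul_eq_mul_div, div_le_iff₀ (by positivity)]
    linarith
  obtain ⟨C, hCd⟩ : ∃ C : ℝ, C = 4 / (c * η) := ⟨_, rfl⟩
  have hC0 : 0 < C := by rw [hCd]; positivity
  refine ⟨δ, C, hδ0, hδ1, hC0, max q₁ q₂, hq₁.trans (le_max_left _ _), fun p P hp hP hl => ?_⟩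
  obtain ⟨J₁, -, H1⟩ := H1 p P ((le_max_left _ _).trans hp) hP hl
  obtain ⟨J₂, -, H2⟩ := H2 p P ((le_max_right _ _).trans hp) hP hl
  have hp7 : 7 ≤ p := (hq₁.trans (le_max_left _ _)).trans hp
  have ev1 := ev_log (η * c) 2 (by positivity) 1
  have ev2 := ev_log (η * c ^ 2) 2 (by positivity) 2
  have ev3 := (tendsto_rpow_atTop hδ0).eventually_ge_atTop (3 : ℝ)
  have ev4 := Real.tendsto_log_atTop.eventually_ge_atTop (max 1 (((J₁ : ℝ) + J₂) / C))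
  obtain ⟨x₀, hx₀⟩ := eventually_atTop.1
    (((ev1.and ev2).and (ev3.and ev4)).and (eventually_ge_atTop (1 : ℝ)))
  refine ⟨⌈x₀⌉₊, fun M J a r hM hJ hr => ?_⟩
  obtain ⟨⟨⟨e1, e2⟩, e3, e4⟩, hM1⟩ := hx₀ (M : ℝ) (Nat.ceil_le.1 hM)
  rw [pow_one] at e1
  have hL1 : 1 ≤ Real.log M := (le_max_left _ _).trans e4
  have hJ12 : ((J₁ : ℝ) + J₂) ≤ J := by
    have := (le_max_right _ _).trans e4
    rw [div_le_iff₀ hC0] at this
    linarith
  have hJ₁ : J₁ ≤ J := by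
    have h0 : (0 : ℝ) ≤ J₂ := Nat.cast_nonneg _
    exact_mod_cast (by linarith : (J₁ : ℝ) ≤ J)
  have hJ₂ : J₂ ≤ J := by
    have h0 : (0 : ℝ) ≤ J₁ := Nat.cast_nonneg _
    exact_mod_cast (by linarith : (J₂ : ℝ) ≤ J)
  obtain ⟨w, hw⟩ : ∃ w : ℕ, w = ⌊(M : ℝ) ^ δ⌋₊ := ⟨_, rfl⟩
  rw [← hw]
  have hw3 : 3 ≤ w := by
    rw [hw]
    exact Nat.le_floor (by exact_mod_cast e3)
  have hM0 : (0 : ℝ) ≤ M := by linarith
  have hwle : (w : ℝ) ≤ (M : ℝ) ^ δ := by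
    rw [hw]
    exact Nat.floor_le (by positivity)
  have hwM : (w : ℝ) ≤ M := by
    refine hwle.trans ?_
    calc (M : ℝ) ^ δ ≤ (M : ℝ) ^ (1 : ℝ) := Real.rpow_le_rpow_of_exponent_le hM1 hδ1
      _ = M := Real.rpow_one _
  have hwB : ∀ B : ℕ, δ * B ≤ 1 / 2 → (w : ℝ) ^ B ≤ (M : ℝ) ^ (1 / 2 : ℝ) := by
    intro B hB
    calc (w : ℝ) ^ B ≤ ((M : ℝ) ^ δ) ^ B := pow_le_pow_left₀ (Nat.cast_nonneg _) hwle B
      _ = (M : ℝ) ^ (δ * B) := by rw [← Real.rpow_natCast, ← Real.rpow_mul hM0]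
      _ ≤ (M : ℝ) ^ (1 / 2 : ℝ) := Real.rpow_le_rpow_of_exponent_le hM1 hB
  have hw1 := hwB B₁ hδB₁
  have hw2 := hwB B₂ hδB₂
  obtain ⟨S, hS⟩ : ∃ S : ℝ, S = (M : ℝ) ^ (1 / 2 : ℝ) := ⟨_, rfl⟩
  have hS0 : 0 ≤ S := by rw [hS]; positivity
  have hSS : S * S = M := by
    rw [hS, ← Real.rpow_add (by linarith)]
    norm_num
  rw [← hS] at e1 e2 hw1 hw2
  obtain ⟨L, hLd⟩ : ∃ L : ℝ, L = Real.log M := ⟨_, rfl⟩
  rw [← hLd] at e1 e2 hL1 hJ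
  have hL0 : 0 < L := by linarith
  -- the lower bound for the density
  have hwlog : 0 < Real.log w := Real.log_pos (by
    have : (3 : ℝ) ≤ w := by exact_mod_cast hw3
    linarith)
  have hlogle : Real.log w ≤ L := by
    rw [hLd]
    exact Real.log_le_log (by
      have : (3 : ℝ) ≤ w := by exact_mod_cast hw3
      linarith) hwM
  obtain ⟨V, hVd⟩ : ∃ V : ℝ, V = VV p w := ⟨_, rfl⟩
  have hVc : c / L ≤ V := by
    rw [hVd]
    exact (div_le_div_of_nonneg_left hc.le hwlog hlogle).trans (HV p w hp7 hw3)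
  have hcL : c ≤ V * L := by rwa [div_le_iff₀ hL0] at hVc
  have hV0 : 0 < V := lt_of_lt_of_le (by positivity) hVc
  have hJ0 : (0 : ℝ) ≤ J := Nat.cast_nonneg _
  have k1 : 2 * S ≤ η * (V * M) := by
    have h3 : L * 2 ≤ L * (η * (V * S)) := by
      have h5 : η * c * S ≤ η * (V * L) * S :=
        mul_le_mul_of_nonneg_right (mul_le_mul_of_nonneg_left hcL hη0.le) hS0
      nlinarith
    have h4 : 2 ≤ η * (V * S) := le_of_mul_le_mul_left h3 hL0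
    rw [← hSS]
    nlinarith
  have k2 : 2 * S ≤ η * (V ^ 2 * M) := by
    have h3 : L ^ 2 * 2 ≤ L ^ 2 * (η * (V ^ 2 * S)) := by
      have h5 : c ^ 2 ≤ (V * L) ^ 2 := pow_le_pow_left₀ hc.le hcL 2
      have h6 : η * c ^ 2 * S ≤ η * (V * L) ^ 2 * S :=
        mul_le_mul_of_nonneg_right (mul_le_mul_of_nonneg_left h5 hη0.le) hS0
      nlinarith
    have h4 : 2 ≤ η * (V ^ 2 * S) := le_of_mul_le_mul_left h3 (by positivity)
    rw [← hSS]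
    nlinarith
  obtain ⟨m1, -⟩ := H1 J a r w M hJ₁ hr (by omega)
  have m2 := H2 J a r w M hJ₂ hr (by omega)
  rw [← hVd] at m1 m2
  have hμ : 4 / η ≤ J * V := by
    calc 4 / η = C * c := by rw [hCd]; field_simp
      _ ≤ C * (V * L) := mul_le_mul_of_nonneg_left hcL hC0.le
      _ = (C * L) * V := by ring
      _ ≤ J * V := mul_le_mul_of_nonneg_right hJ hV0.le
  have hfin := fin_cha (((Icc 1 M).filter (fun m : ℕ => XX p w P a r J m = 0)).card : ℝ) (J * V) η M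
    (∑ m ∈ Icc 1 M, (XX p w P a r J m : ℝ)) (∑ m ∈ Icc 1 M, (XX p w P a r J m : ℝ) ^ 2)
    (J * (w : ℝ) ^ B₁) (2 * (J ^ 2 * (w : ℝ) ^ B₂)) (by linarith) hη0 hμ
    (by
      have e : (J : ℝ) * V * M = J * M * V := by ring
      rw [e]
      exact m1)
    (by
      have e : ((J : ℝ) * V) ^ 2 * M = J ^ 2 * M * V ^ 2 := by ring
      have e' : (J : ℝ) * V * M = J * M * V := by ring
      rw [e, e']
      exact m2)
    (by
      have h3 : (J : ℝ) * (2 * (w : ℝ) ^ B₁) ≤ J * (η * (V * M)) :=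
        mul_le_mul_of_nonneg_left (by linarith) hJ0
      nlinarith)
    (by
      have h3 : (J : ℝ) ^ 2 * (2 * (w : ℝ) ^ B₂) ≤ J ^ 2 * (η * (V ^ 2 * M)) :=
        mul_le_mul_of_nonneg_left (by linarith) (by positivity)
      nlinarith)
    (chb M (fun m => XX p w P a r J m) (J * V))
  refine hfin.trans ?_
  have : 6 * η ≤ ε := by linarith
  exact mul_le_mul_of_nonneg_right this hM0

end Pool.Agent.Helper98.LM
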