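import Pool.Agent.Helper98.LM.All0
import Pool.Agent.Helper44.LM.M_GG
import Pool.Agent.Helper66.LM.M_GAB
import Pool.Agent.Helper71.LM.M_VLB
import Pool.Agent.Helper99.LM.M_MO1
import Pool.Agent.Helper72.LM.M_PR2
import Pool.Agent.Helper81.LM.M_MO2
import Pool.Agent.Helper98.LM.M_CHA
import Pool.Agent.Helper55.LM.M_CHB
import Pool.Agent.Helper84.LM.M_EX
import Pool.Agent.Helper87.LM.M_FNA
import Pool.Agent.Helper18.LM.M_FNB

/-!
# Project LM: assembly
-/

set_option autoImplicit false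

namespace Pool.Agent.Helper98.LM

open Pool.Agent

theorem pGAB : StGAB := Helper66.LM.hGAB Helper44.LM.hGG Helper15.AB.hMT

theorem pVLB : StVLB := Helper71.LM.hVLB (Helper85.LQ.hMR4 Helper48.BK.tSW)

theorem pMO1 : StMO1 := Helper99.LM.hMO1 pSV Helper26.LM.hLOC pGAB

theorem pMO2 : StMO2 := Helper81.LM.hMO2 pMO1 (Helper72.LM.hPR2 pSV Helper26.LM.hLOC) pGAB

theorem pFNA : StFNA := Helper87.LM.hFNA (Helper98.LM.hCHA pMO1 pMO2 pVLB) Helper84.LM.hEX

theorem pFNB : StFNB := Helper18.LM.hFNB (Helper55.LM.hCHB pMO1 pMO2 pVLB) Helper84.LM.hEX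

end Pool.Agent.Helper98.LM
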