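import Pool.Agent.Helper48.BK.Top
import Pool.Agent.Helper18.TR.Final
import Pool.Agent.Helper15.AB.M_MT
import Pool.Agent.Helper85.LQ.M_MR4
import Pool.Agent.Helper2.LM.M_SV
import Pool.Agent.Helper26.LM.M_LOC

/-!
# Project LM: common assembly
-/

set_option autoImplicit false

namespace Pool.Agent.Helper98.LM

open Pool.Agent

theorem pSV : StSV := Helper2.LM.hSV Helper18.TR.fl

end Pool.Agent.Helper98.LM
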