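import Pool.Agent.Helper98.LM.St

/-!
# Project LM, second theorem (MP_d57c14_nt): for every `C` a positive proportion of the `n` have no `k ≤ C log n` with `n ^ 2 - n k + k ^ 2` prime,
with the proportion `exp (- exp (K C ^ 2))`. Statements of the modules, with proofs.

`n = P m`, `P` the product of the primes `q ≡ 2 (3)`, `q ≤ p`: if `q ∣ k` then `q` divides the value, so only the `k` prime to `P` count, their proportion is `∏ (1 - 1 / q)`, of order `(log p) ^ (- 1/2)`; for these the primes `l ≡ 1 (3)` remove the expected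
number of classes: the number of the `m ≤ M` with a prime value is `≤ C₁ M / log M`, times `∏_{l ∣ k} (1 + 8 / l)`.
-/

set_option autoImplicit false

noncomputable section

namespace Pool.Agent.Helper98.LM

open Finset
open Pool.Agent.Helper15.AB (StMT)
open Pool.Agent.Helper30.LQ (StMR4)
open Pool.Agent.Helper30.LK (StMR3)

/-- the product of the primes `q ≤ p`, `q ≡ 2 (3)` -/
def P3 (p : ℕ) : ℕ := ∏ q ∈ (Icc 1 p).filter (fun q => q.Prime ∧ q % 3 = 2), q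

/-- the primes `l ≡ 1 (3)` in `(7, w]` -/
def Q1 (w : ℕ) : Finset ℕ := (Ioc 7 w).filter (fun l => l.Prime ∧ l % 3 = 1)

/-- (NSV, assume `hS : StSV`, `hL : StLOC`, `h3 : StMR3`.) The sieve for one `k`. PROOF. SV with `ε = 1`, `Q = Q1 w`, `S l = SS (P3 p) 0 k l` (`l ∤ P3 p` because the prime factors of `P3 p` are `≡ 2 (3)`): `|S l| = 2` for `l ∤ k`, and `1 - |S l| / l ≤ 1 ≤ (1 - 2 / l) (1 + 8 / l)` for `l ∣ k`. So the number is at most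
`2 M ∏_{l ∈ Q1 w} (1 - 2 / l) ∏_{l ∣ k} (1 + 8 / l) + w ^ B`, and `∏_{l ∈ Q1 w} (1 - 2 / l) ≤ exp(- 2 ∑_{l ∈ Q1 w} 1 / l) ≤ exp(2 / 7 + 2 C - log log w)` (MR3, lower bound for the class 1). -/
def StNSV : Prop := ∃ C : ℝ, 0 < C ∧ ∃ B : ℕ, ∀ p w k M : ℕ, 3 ≤ w →
  (((Icc 1 M).filter (fun m : ℕ => ∀ l ∈ Q1 w, ¬ (l : ℤ) ∣ fz ((P3 p : ℤ) * m) k)).card : ℝ) ≤
    C * (M / Real.log w * ∏ l ∈ (Q1 w).filter (fun l => l ∣ k), (1 + 8 / (l : ℝ))) + (w : ℝ) ^ B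

/-- (NKP, assume `hM : StMT`.) The mean value over the `k` prime to `P`. PROOF. `P = P3 p`. Expand the product over the subsets `T` of `Q1 w` (`Finset.prod_one_add`), `d = ∏_{l ∈ T} l`, prime to `P`: `∑_T ∏ (8 / l) #{k ≤ K : d ∣ k, (k, P) = 1}`; `k = d k'`, `k' ≤ K / d` prime to `P`: at most `(K / (d P) + 1) φ(P)` (Mathlib `Nat.filter_coprime_Ico_eq_totient`,
blocks of length `P`), and none if `d > K` (so only `T ⊆ Q1 K`): `≤ K (φ(P) / P) ∏_l (1 + 8 / l ^ 2) + φ(P) ∏_{l ≤ K} (1 + 8 / l)`. The first product is `≤ exp(8 ∑ 1 / l ^ 2) ≤ exp 16`, the second `≤ exp(8 (log log K + C)) = C' (log K) ^ 8`; for `K ≥ K₀(p)` the second term is at most `K ∏ (1 - 1 / q)`; `φ(P) / P = ∏_{q ∣ P} (1 - 1 / q)`. -/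
def StNKP : Prop := ∃ C : ℝ, 0 < C ∧ ∀ p : ℕ, ∃ K₀ : ℕ, ∀ K w : ℕ, K₀ ≤ K →
  ∑ k ∈ (Icc 1 K).filter (fun k => Nat.Coprime k (P3 p)), ∏ l ∈ (Q1 w).filter (fun l => l ∣ k), (1 + 8 / (l : ℝ)) ≤
    C * (K * ∏ q ∈ (Icc 1 p).filter (fun q => q.Prime ∧ q % 3 = 2), (1 - 1 / (q : ℝ)))

open Classical in
/-- (NFI, assume `h1 : StNSV`, `h2 : StNKP`, `hM : StMT`, `h4 : StMR4`.) PROOF. `∏_{q ≤ p, q ≡ 2 (3)} (1 - 1 / q) ≤ exp(- ∑ 1 / q) ≤ C₅ (log p) ^ (- 1/2)` (MT minus MR4: `∑_{q ≡ 2 (3)} 1 / q ≥ (log log p) / 2 - C`). Given `C ≥ 1`: `p = ⌈exp(K₁ C ^ 2)⌉₊`, `P = P3 p ≤ 4 ^ p` (`P3 p ∣ primorial p`, `primorial_le_4_pow`), `M = N / P`,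
`H = ⌊C log N⌋₊`, `w = ⌊M ^ (1 / (2 B + 2))⌋₊`. Let `n = P m ≤ N`, `√N ≤ n`, be bad: some `1 ≤ k ≤ C log n` has `f = k ^ 2 + k (n - k) + (n - k) ^ 2 = n ^ 2 - n k + k ^ 2` prime (`k ≤ n` for large `N`; `f ≥ n ^ 2 / 2 > max(p, w)`). If a prime `q ∣ P` divides `k`, then `q ∣ f`, `f > q`: impossible. So `k` is prime to `P`, and no `l ∈ Q1 w` divides `f`.
NSV and NKP: the number of the bad `m` is at most `C₁ (M / log w) C₂ H C₅ (log p) ^ (- 1/2) + H w ^ B`; `log w ≥ c₆ log N` for large `N`, `w ^ B ≤ M ^ (1/2)`: at most `C₇ C M (log p) ^ (- 1/2) + M / 8 ≤ M / 4`, if `K₁` is large (`log p ≥ K₁ C ^ 2`). The `m` with `P m < √N` are at most `M / 4`. So at least `M / 2 ≥ N / (4 P)`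
of the `n = P m ≤ N` are good, and `4 P ≤ 4 ^ (p + 1) ≤ exp(exp(K C ^ 2))` with `K = K₁ + 4` or so. -/
def StNFI : Prop := ∃ K : ℝ, 0 < K ∧ ∀ C : ℝ, 1 ≤ C → ∃ N₀ : ℕ, ∀ N : ℕ, N₀ ≤ N →
  Real.exp (-Real.exp (K * C ^ 2)) * N ≤
    (((Icc 1 N).filter (fun n : ℕ => ∀ k : ℕ, 1 ≤ k → (k : ℝ) ≤ C * Real.log n →
      2 * k ≤ n ∧ ¬ (k ^ 2 + k * (n - k) + (n - k) ^ 2).Prime)).card : ℝ)

end Pool.Agent.Helper98.LM
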