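import Pool.Agent.Helper98.LM.All0
import Pool.Agent.Helper98.LM.St2
import Pool.Agent.Helper63.LK.M_MR3
import Pool.Agent.Helper81.LM.M_NSV
import Pool.Agent.Helper71.LM.M_NKP
import Pool.Agent.Helper22.LM.M_NFI

/-!
# Project LM: assembly, second theorem
-/

set_option autoImplicit false

namespace Pool.Agent.Helper98.LM

open Pool.Agent

theorem pNFI : StNFI :=
  Helper22.LM.hNFI (Helper81.LM.hNSV pSV Helper26.LM.hLOC (Helper63.LK.hMR3 Helper48.BK.tSW))
    (Helper71.LM.hNKP Helper15.AB.hMT) Helper15.AB.hMT (Helper85.LQ.hMR4 Helper48.BK.tSW)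

end Pool.Agent.Helper98.LM
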